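import Pool.Agent.W2helper37.SG.Stm

/-!
# Project SG, piece TER: the relations for a tensor product
-/

set_option autoImplicit false
set_option linter.unusedSectionVars false
set_option linter.unusedSimpArgs false
set_option backward.isDefEq.respectTransparency false
set_option backward.defeqAttrib.useBackward true

open CategoryTheory Limits MonoidalCategory
open Pool.Agent.Y112.SR Pool.Agent.Y112.KD Pool.Agent.Y112.SC Pool.Agent.W2helper37.SG

namespace Pool.Agent.W2helper88.SG

universe u v w

section Lin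

variable {K : Type w} [Field K] {ι : Type} [Fintype ι] [DecidableEq ι]

variable {V W U : Type w} [AddCommGroup V] [Module K V] [AddCommGroup W] [Module K W]
  [AddCommGroup U] [Module K U]

/-- the power of `s` with the parity of the entry -/
def SS (o : ι → Bool) (s : Module.End K V) (k i : ι) : Module.End K V :=
  if o k = o i then 1 else s

omit [Fintype ι] [DecidableEq ι] in
lemma ss_comm (o : ι → Bool) (s : Module.End K V) (k i l j : ι) :
    SS o s k i * SS o s l j = SS o s l j * SS o s k i := by
  unfold SS; split_ifs <;> simp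

omit [Fintype ι] [DecidableEq ι] in
lemma ss_mul (o : ι → Bool) (s : Module.End K V) (hs : s * s = 1) (k i l : ι) :
    SS o s k i * SS o s l k = SS o s l i := by
  unfold SS
  rcases h1 : o k <;> rcases h2 : o i <;> rcases h3 : o l <;> simp [hs]

omit [Fintype ι] [DecidableEq ι] in
lemma ss_left (o : ι → Bool) (s : Module.End K V) (A : ι → ι → Module.End K V)
    (hp : ParRel o s A) (k i l j : ι) :
    (cc K (o i) (o l) * cc K (o k) (o l)) • (A k i * SS o s l j) =
      (cc K (o i) (o j) * cc K (o k) (o j)) • (SS o s l j * A k i) := by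
  unfold SS
  by_cases h : o l = o j
  · rw [if_pos h, h, mul_one, one_mul]
  · rw [if_neg h, hp k i, smul_smul]
    congr 1
    revert h
    unfold Pool.Agent.W2helper37.SG.cc sg
    rcases h1 : o k <;> rcases h2 : o i <;> rcases h3 : o l <;> rcases h4 : o j <;> simp

omit [Fintype ι] [DecidableEq ι] in
lemma ss_right (o : ι → Bool) (s : Module.End K V) (A : ι → ι → Module.End K V)
    (hp : ParRel o s A) (k i l j : ι) :
    (cc K (o i) (o l) * cc K (o k) (o l)) • (SS o s k i * A l j) =
      (cc K (o i) (o j) * cc K (o k) (o j)) • (A l j * SS o s k i) := by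
  unfold SS
  by_cases h : o k = o i
  · rw [if_pos h, h, mul_one, one_mul]
    congr 1
    unfold Pool.Agent.W2helper37.SG.cc
    rcases h2 : o i <;> rcases h3 : o l <;> rcases h4 : o j <;> simp
  · rw [if_neg h, hp l j, smul_smul]
    congr 1
    revert h
    unfold Pool.Agent.W2helper37.SG.cc sg
    rcases h1 : o k <;> rcases h2 : o i <;> rcases h3 : o l <;> rcases h4 : o j <;> simp

theorem ter_abs (t : Module.End K V →ₗ[K] Module.End K W →ₗ[K] Module.End K U)
    (ht : ∀ f g f' g', t f g * t f' g' = t (f * f') (g * g')) (o : ι → Bool)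
    (s : Module.End K V) (hs : s * s = 1)
    (A : ι → ι → Module.End K V) (B : ι → ι → Module.End K W)
    (hA : GlRel o A) (hpA : ParRel o s A) (hB : GlRel o B) :
    GlRel o (fun k i => t (A k i) 1 + t (SS o s k i) (B k i)) := by
  intro k i l j
  have hA' := hA k i l j
  have hB' := hB k i l j
  have hl := ss_left o s A hpA k i l j
  have hr := ss_right o s A hpA k i l j
  set x : K := cc K (o i) (o l) * cc K (o k) (o l) with hx
  set y : K := cc K (o i) (o j) * cc K (o k) (o j) with hy
  have hsl : ∀ (c : K) f g, c • t f g = t (c • f) g := fun c f g => by simp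
  have hsb : ∀ f f' g, t f g - t f' g = t (f - f') g := fun f f' g => by simp
  have h1 : x • (t (A k i) 1 * t (A l j) 1) - y • (t (A l j) 1 * t (A k i) 1) =
      (if k = j then cc K (o i) (o j) • t (A l i) 1 else 0) -
        (if l = i then cc K (o k) (o i) • t (A k j) 1 else 0) := by
    rw [ht, ht, one_mul, hsl, hsl, hsb, hA']
    split_ifs <;> simp
  have h2 : x • (t (A k i) 1 * t (SS o s l j) (B l j)) -
      y • (t (SS o s l j) (B l j) * t (A k i) 1) = 0 := by
    rw [ht, ht, one_mul, mul_one, hsl, hsl, hl, sub_self]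
  have h3 : x • (t (SS o s k i) (B k i) * t (A l j) 1) -
      y • (t (A l j) 1 * t (SS o s k i) (B k i)) = 0 := by
    rw [ht, ht, one_mul, mul_one, hsl, hsl, hr, sub_self]
  have h4 : x • (t (SS o s k i) (B k i) * t (SS o s l j) (B l j)) -
      y • (t (SS o s l j) (B l j) * t (SS o s k i) (B k i)) =
      (if k = j then cc K (o i) (o j) • t (SS o s l i) (B l i) else 0) -
        (if l = i then cc K (o k) (o i) • t (SS o s k j) (B k j) else 0) := by
    rw [ht, ht, ss_comm o s l j k i, ← map_smul, ← map_smul, ← map_sub, hB', map_sub]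
    congr 1
    · split_ifs with h
      · subst h
        rw [map_smul, ss_mul o s hs]
      · simp
    · split_ifs with h
      · subst h
        rw [map_smul, ss_comm, ss_mul o s hs]
      · simp
  simp only [mul_add, add_mul, smul_add]
  have : ∀ a1 a2 a3 a4 b1 b2 b3 b4 r1 r4 : Module.End K U, a1 - b1 = r1 → a2 - b2 = 0 →
      a3 - b3 = 0 → a4 - b4 = r4 → (a1 + a3 + (a2 + a4)) - (b1 + b2 + (b3 + b4)) = r1 + r4 := by
    intro a1 a2 a3 a4 b1 b2 b3 b4 r1 r4 e1 e2 e3 e4
    rw [← e1, ← e4, sub_eq_zero.mp e2, sub_eq_zero.mp e3]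
    abel
  rw [this _ _ _ _ _ _ _ _ _ _ h1 h2 h3 h4]
  split_ifs <;> abel

omit [Fintype ι] [DecidableEq ι] in
theorem ter_par (t : Module.End K V →ₗ[K] Module.End K W →ₗ[K] Module.End K U)
    (ht : ∀ f g f' g', t f g * t f' g' = t (f * f') (g * g')) (o : ι → Bool)
    (s : Module.End K V) (s' : Module.End K W)
    (A : ι → ι → Module.End K V) (B : ι → ι → Module.End K W)
    (hpA : ParRel o s A) (hpB : ParRel o s' B) :
    ParRel o (t s s') (fun k i => t (A k i) 1 + t (SS o s k i) (B k i)) := by
  intro k i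
  have h1 := hpA k i
  have h2 := hpB k i
  have h3 : s * SS o s k i = SS o s k i * s := by unfold SS; split_ifs <;> simp
  simp only [mul_add, add_mul, smul_add, ht, mul_one, one_mul]
  rw [h1, h2, h3, map_smul, map_smul, LinearMap.smul_apply]
end Lin

section Real

variable {C : Type u} [Category.{v} C] [Preadditive C] [MonoidalCategory C] [SymmetricCategory C]
  {K : Type w} [Field K] (R : SuperRealisation C K)

/-- `bx` as a bilinear map -/
noncomputable def tt (X Y : C) : Module.End K (R.H.obj X) →ₗ[K] Module.End K (R.H.obj Y) →ₗ[K]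
    Module.End K (R.H.obj (X ⊗ Y)) :=
  LinearMap.mk₂ K (fun f g => (bx R (ModuleCat.ofHom f) (ModuleCat.ofHom g)).hom)
    (fun f f' g => by
      have : ModuleCat.ofHom (f + f') = ModuleCat.ofHom f + ModuleCat.ofHom f' := rfl
      rw [this, bx_add_left, ModuleCat.hom_add])
    (fun c f g => by
      have : ModuleCat.ofHom (c • f) = c • ModuleCat.ofHom f := rfl
      rw [this, bx_smul_left, ModuleCat.hom_smul])
    (fun f g g' => by
      have : ModuleCat.ofHom (g + g') = ModuleCat.ofHom g + ModuleCat.ofHom g' := rfl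
      rw [this, bx_add_right, ModuleCat.hom_add])
    (fun c f g => by
      have : ModuleCat.ofHom (c • g) = c • ModuleCat.ofHom g := rfl
      rw [this, bx_smul_right, ModuleCat.hom_smul])

lemma tt_apply {X Y : C} (f : Module.End K (R.H.obj X)) (g : Module.End K (R.H.obj Y)) :
    tt R X Y f g = (bx R (ModuleCat.ofHom f) (ModuleCat.ofHom g)).hom := rfl

lemma tt_mul {X Y : C} (f : Module.End K (R.H.obj X)) (g : Module.End K (R.H.obj Y))
    (f' : Module.End K (R.H.obj X)) (g' : Module.End K (R.H.obj Y)) :
    tt R X Y f g * tt R X Y f' g' = tt R X Y (f * f') (g * g') := by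
  rw [tt_apply, tt_apply, tt_apply, Module.End.mul_eq_comp, ← ModuleCat.hom_comp, bx_comp]
  rfl

lemma tt_hom {X Y : C} (f : R.H.obj X ⟶ R.H.obj X) (g : R.H.obj Y ⟶ R.H.obj Y) :
    tt R X Y f.hom g.hom = (bx R f g).hom := rfl

lemma tenA_eq [RightRigidCategory C] {ι : Type} (o : ι → Bool) {X Y : C}
    (A : ι → ι → Module.End K (R.H.obj X)) (B : ι → ι → Module.End K (R.H.obj Y)) :
    tenA R o A B = fun k i => tt R X Y (A k i) 1 + tt R X Y (SS o (R.par X).hom k i) (B k i) := by
  funext k i
  rw [tenA, ModuleCat.hom_add]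
  congr 1
  unfold SS
  split_ifs <;> rfl

end Real

theorem p_ter : P_TER.{u, v, w} := by
  intro C _ _ _ _ _ _ _ _ K _ R X Y ι _ _ o A B hA hpA hB hpB
  have hs : (R.par X).hom * (R.par X).hom = 1 := by
    rw [Module.End.mul_eq_comp, ← ModuleCat.hom_comp, R.par_sq]
    rfl
  rw [tenA_eq]
  refine ⟨ter_abs (tt R X Y) (fun f g f' g' => tt_mul R f g f' g') o _ hs A B hA hpA hB, ?_⟩
  rw [← bx_par]
  exact ter_par (tt R X Y) (fun f g f' g' => tt_mul R f g f' g') o _ _ A B hpA hpB

end Pool.Agent.W2helper88.SG
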