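import Pool.Agent.W2helper37.SG.Stm3
import Pool.Agent.W2helper92.SG.La
import Pool.Agent.W2helper98.SG.Nil

/-!
# Project SG, piece LAO: vanishing traces and the odd part, orthosymplectic case
-/

set_option autoImplicit false
set_option linter.unusedSectionVars false
set_option linter.unusedSimpArgs false

namespace Pool.Agent.W2helper88.SG

open Pool.Agent.W2helper37.SG

universe w

section rel

variable {K : Type w} [Field K] [CharZero K] {ι : Type} [Fintype ι] [DecidableEq ι] {o : ι → Bool}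
  {σ : ι → ι} {γ : ι → K} {N : ι → ℤ} {Q : Type w} [AddCommGroup Q] [Module K Q]
  {A : ι → ι → Module.End K Q}

theorem anti' (hF : FormIdx o σ γ N) (hA : OspRel o σ γ A) (l j : ι) :
    (Pool.Agent.W2helper37.SG.cc K (o j) (o l) * γ j * (γ l)⁻¹) • A (σ j) (σ l) =
      -(sg K (o l)) • A l j := by
  have h := hA.anti l j
  rw [tauA, hF.sym l, mul_inv] at h
  have h1 : (sg K (o l))⁻¹ = sg K (o l) := by
    unfold sg
    split_ifs <;> simp
  have h2 : sg K (o l) * sg K (o l) = 1 := by
    unfold sg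
    split_ifs <;> simp
  rw [h1] at h
  have h3 := congrArg (fun z => sg K (o l) • z) h
  simp only [smul_smul, smul_neg] at h3
  rw [neg_smul, ← h3]
  congr 1
  linear_combination (-(Pool.Agent.W2helper37.SG.cc K (o j) (o l) * γ j * (γ l)⁻¹)) * h2

theorem diag (hF : FormIdx o σ γ N) (hA : OspRel o σ γ A) (k : ι) : A (σ k) (σ k) = -A k k := by
  have h := anti' hF hA k k
  have h1 : Pool.Agent.W2helper37.SG.cc K (o k) (o k) * γ k * (γ k)⁻¹ = sg K (o k) := by
    rw [mul_assoc, mul_inv_cancel₀ (hF.ne k), mul_one]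
    unfold Pool.Agent.W2helper37.SG.cc sg
    rw [Bool.and_self]
  have h2 : sg K (o k) ≠ 0 := by
    unfold sg
    split_ifs <;> simp
  rw [h1, neg_smul, ← smul_neg] at h
  exact smul_right_injective _ h2 h

theorem prod_anti (hF : FormIdx o σ γ N) (hA : OspRel o σ γ A) {a b : ι} (ha : o a = false)
    (hb : o b = true) : A a b * A b a = -(A (σ b) (σ a) * A (σ a) (σ b)) := by
  have h1 := anti' hF hA a b
  have h2 := anti' hF hA b a
  simp only [ha, hb, Pool.Agent.W2helper37.SG.cc, sg, Bool.and_false, Bool.false_and,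
    Bool.false_eq_true, if_false, if_true, one_mul, neg_neg, one_smul, neg_smul] at h1 h2
  rw [← h2, ← neg_eq_iff_eq_neg.2 h1, neg_mul, smul_mul_smul_comm]
  have h3 : γ b * (γ a)⁻¹ * (γ a * (γ b)⁻¹) = 1 := by
    have := hF.ne a
    have := hF.ne b
    field_simp
  rw [h3, one_smul]

/-- the torus element -/
def DD (N : ι → ℤ) (A : ι → ι → Module.End K Q) : Module.End K Q := ∑ j, (N j : K) • A j j

theorem com (hF : FormIdx o σ γ N) (hA : OspRel o σ γ A) (l j : ι) :
    DD N A * A l j - A l j * DD N A = (2 * ((N l : K) - N j)) • A l j := by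
  have e : DD N A * A l j - A l j * DD N A =
      ∑ b, (N b : K) • (A b b * A l j - A l j * A b b) := by
    unfold DD
    rw [Finset.sum_mul, Finset.mul_sum, ← Finset.sum_sub_distrib]
    refine Finset.sum_congr rfl fun b _ => ?_
    rw [smul_mul_assoc, mul_smul_comm, smul_sub]
  have hcc : ∀ x y : Bool, Pool.Agent.W2helper37.SG.cc K x y *
      Pool.Agent.W2helper37.SG.cc K x y = 1 := by
    intro x y
    unfold Pool.Agent.W2helper37.SG.cc
    split_ifs <;> simp
  have e2 : ∀ b, (N b : K) • (A b b * A l j - A l j * A b b) =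
      (if b = j then ((N b : K) * Pool.Agent.W2helper37.SG.cc K (o b) (o j)) • A l b else 0) -
      (if l = b then ((N b : K) * Pool.Agent.W2helper37.SG.cc K (o b) (o b)) • A b j else 0) -
      (if b = σ l then ((N b : K) * (Pool.Agent.W2helper37.SG.cc K (o b) (o j) * γ j *
        (γ l)⁻¹)) • A (σ j) b else 0) +
      (if b = σ j then ((N b : K) * (Pool.Agent.W2helper37.SG.cc K (o b) (o l) * sg K (o j) *
        sg K (o l) * γ j * (γ l)⁻¹)) • A b (σ l) else 0) := by
    intro b
    have h := hA.rel b b l j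
    rw [hcc, hcc, one_smul, one_smul] at h
    rw [h, smul_add, smul_sub, smul_sub]
    simp only [smul_ite, smul_zero, smul_smul]
  rw [e, Finset.sum_congr rfl fun b _ => e2 b, Finset.sum_add_distrib, Finset.sum_sub_distrib,
    Finset.sum_sub_distrib, Finset.sum_ite_eq', Finset.sum_ite_eq, Finset.sum_ite_eq',
    Finset.sum_ite_eq', if_pos (Finset.mem_univ _), if_pos (Finset.mem_univ _),
    if_pos (Finset.mem_univ _), if_pos (Finset.mem_univ _)]
  have h := anti' hF hA l j
  have hpl : o (σ l) = o l := hF.par l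
  have hpj : o (σ j) = o j := hF.par j
  rw [hpl, hpj]
  have hcs : Pool.Agent.W2helper37.SG.cc K (o l) (o j) =
      Pool.Agent.W2helper37.SG.cc K (o j) (o l) := by
    unfold Pool.Agent.W2helper37.SG.cc
    rw [Bool.and_comm]
  have hN1 : ((N (σ l) : ℤ) : K) = -(N l : K) := by rw [hF.neg l]; push_cast; ring
  have hN2 : ((N (σ j) : ℤ) : K) = -(N j : K) := by rw [hF.neg j]; push_cast; ring
  have hs : ∀ x : ι, (N x : K) * sg K (o x) = -(N x : K) := by
    intro x
    rcases hx : o x
    · rw [hF.even x hx]; simp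
    · unfold sg; simp
  have hc : ∀ x : ι, (N x : K) * Pool.Agent.W2helper37.SG.cc K (o x) (o x) = -(N x : K) := by
    intro x
    rcases hx : o x
    · rw [hF.even x hx]; simp
    · unfold Pool.Agent.W2helper37.SG.cc; simp
  have hs2 : sg K (o l) * sg K (o l) = 1 := by
    unfold sg
    split_ifs <;> simp
  rw [hc, hc, hN1, hN2, hcs]
  have t1 : (-(N l : K) * (Pool.Agent.W2helper37.SG.cc K (o j) (o l) * γ j * (γ l)⁻¹)) •
      A (σ j) (σ l) = (-(N l : K)) • A l j := by
    rw [← smul_smul, h, smul_smul]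
    congr 1
    linear_combination (hs l)
  have t2 : (-(N j : K) * (Pool.Agent.W2helper37.SG.cc K (o j) (o l) * sg K (o j) * sg K (o l) *
      γ j * (γ l)⁻¹)) • A (σ j) (σ l) = (-(N j : K)) • A l j := by
    have : (-(N j : K) * (Pool.Agent.W2helper37.SG.cc K (o j) (o l) * sg K (o j) * sg K (o l) *
      γ j * (γ l)⁻¹)) = (-(N j : K) * sg K (o j) * sg K (o l)) *
        (Pool.Agent.W2helper37.SG.cc K (o j) (o l) * γ j * (γ l)⁻¹) := by ring
    rw [this, ← smul_smul, h, smul_smul]
    congr 1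
    linear_combination (hs j) * (sg K (o l) * sg K (o l)) - (N j : K) * hs2
  rw [t1, t2]
  simp only [neg_smul, mul_sub, sub_smul, two_mul, add_smul]
  abel

theorem rel_ab (hF : FormIdx o σ γ N) (hA : OspRel o σ γ A) {a b : ι} (ha : o a = false)
    (hb : o b = true) : A a b * A b a + A b a * A a b = A a a - A b b := by
  have h := hA.rel a b b a
  have h1 : a ≠ σ b := by
    rintro rfl
    rw [hF.par, hb] at ha
    exact Bool.false_ne_true ha.symm
  have h2 : b ≠ σ a := by
    rintro rfl
    rw [hF.par, ha] at hb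
    exact Bool.false_ne_true hb
  rw [if_pos rfl, if_pos rfl, if_neg h1, if_neg h2] at h
  simp only [ha, hb, Pool.Agent.W2helper37.SG.cc, Bool.and_false, Bool.false_and, Bool.and_self,
    Bool.and_true, Bool.true_and, Bool.false_eq_true, if_false, if_true, one_mul, mul_one, one_smul,
    sub_zero, add_zero, neg_smul] at h
  rw [← neg_inj, neg_sub, ← h]
  abel

/-- the even indices -/
def PA (o : ι → Bool) : Finset ι := Finset.univ.filter fun a => o a = false

/-- the indices with `N = -1` -/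
def PB (N : ι → ℤ) : Finset ι := Finset.univ.filter fun b => N b = -1

/-- the indices with `N = 1` -/
def PC (N : ι → ℤ) : Finset ι := Finset.univ.filter fun b => N b = 1

theorem mem_PA {a : ι} : a ∈ PA o ↔ o a = false := by simp [PA]

theorem mem_PB {a : ι} : a ∈ PB N ↔ N a = -1 := by simp [PB]

theorem mem_PC {a : ι} : a ∈ PC N ↔ N a = 1 := by simp [PC]

theorem odd_of (hF : FormIdx o σ γ N) {b : ι} (hb : N b ≠ 0) : o b = true := by
  rcases h : o b
  · exact absurd (hF.even b h) hb
  · rfl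

theorem sum_PA (hF : FormIdx o σ γ N) {X : Type w} [AddCommMonoid X] (f : ι → X) :
    ∑ a ∈ PA o, f (σ a) = ∑ a ∈ PA o, f a :=
  Finset.sum_nbij' σ σ (fun a ha => by rw [mem_PA, hF.par]; exact mem_PA.1 ha)
    (fun a ha => by rw [mem_PA, hF.par]; exact mem_PA.1 ha) (fun a _ => hF.inv a)
    (fun a _ => hF.inv a) (fun a _ => rfl)

theorem sum_PC (hF : FormIdx o σ γ N) {X : Type w} [AddCommMonoid X] (f : ι → X) :
    ∑ a ∈ PC N, f (σ a) = ∑ a ∈ PB N, f a :=
  Finset.sum_nbij' σ σ (fun a ha => by rw [mem_PB, hF.neg, mem_PC.1 ha])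
    (fun a ha => by rw [mem_PC, hF.neg, mem_PB.1 ha]; norm_num) (fun a _ => hF.inv a)
    (fun a _ => hF.inv a) (fun a _ => rfl)

theorem sum_even (hF : FormIdx o σ γ N) (hA : OspRel o σ γ A) : ∑ a ∈ PA o, A a a = 0 := by
  have h := sum_PA hF (fun a => A a a)
  simp only [diag hF hA] at h
  rw [Finset.sum_neg_distrib, neg_eq_iff_add_eq_zero, ← two_smul K] at h
  exact (smul_eq_zero.1 h).resolve_left two_ne_zero

theorem sum_DD (hF : FormIdx o σ γ N) (hA : OspRel o σ γ A) :
    DD N A = -((2 : K) • ∑ b ∈ PB N, A b b) := by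
  have h1 : DD N A = (∑ b ∈ PC N, A b b) - ∑ b ∈ PB N, A b b := by
    unfold DD PC PB
    rw [Finset.sum_filter, Finset.sum_filter, ← Finset.sum_sub_distrib]
    refine Finset.sum_congr rfl fun b _ => ?_
    rcases h : o b
    · rw [hF.even b h]; simp
    · rcases hF.odd b h with h2 | h2 <;> rw [h2] <;> norm_num
  have h2 : ∑ b ∈ PC N, A b b = -∑ b ∈ PB N, A b b := by
    rw [← sum_PC hF (fun b => A b b)]
    simp only [diag hF hA, Finset.sum_neg_distrib, neg_neg]
  rw [h1, h2, two_smul]
  abel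

/-- `∑ A a b A b a`, `a` even, `N b = -1` -/
def YY (o : ι → Bool) (N : ι → ℤ) (A : ι → ι → Module.End K Q) : Module.End K Q :=
  ∑ a ∈ PA o, ∑ b ∈ PB N, A a b * A b a

/-- `∑ A b a A a b`, `a` even, `N b = -1` -/
def YZ (o : ι → Bool) (N : ι → ℤ) (A : ι → ι → Module.End K Q) : Module.End K Q :=
  ∑ a ∈ PA o, ∑ b ∈ PB N, A b a * A a b

theorem XX_false' (hF : FormIdx o σ γ N) (hA : OspRel o σ γ A) :
    XX o A false = YY o N A - YZ o N A := by
  have h1 : XX o A false = (∑ a ∈ PA o, ∑ b ∈ PC N, A a b * A b a) + YY o N A := by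
    unfold XX YY PA
    rw [← Finset.sum_add_distrib]
    refine Finset.sum_congr rfl fun a ha => ?_
    rw [PC, PB, Finset.sum_filter, Finset.sum_filter, Finset.sum_filter, ← Finset.sum_add_distrib]
    refine Finset.sum_congr rfl fun b _ => ?_
    rcases h : o b
    · rw [hF.even b h]; simp
    · rcases hF.odd b h with h2 | h2 <;> rw [h2] <;> norm_num
  have h2 : ∑ a ∈ PA o, ∑ b ∈ PC N, A a b * A b a = -YZ o N A := by
    unfold YZ
    rw [← sum_PA hF (fun a => ∑ b ∈ PB N, A b a * A a b), ← Finset.sum_neg_distrib]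
    refine Finset.sum_congr rfl fun a ha => ?_
    rw [← sum_PC hF (fun b => A b (σ a) * A (σ a) b), ← Finset.sum_neg_distrib]
    refine Finset.sum_congr rfl fun b hb => ?_
    exact prod_anti hF hA (mem_PA.1 ha) (odd_of hF (by rw [mem_PC.1 hb]; norm_num))
  rw [h1, h2]
  abel

theorem sum_YY (hF : FormIdx o σ γ N) (hA : OspRel o σ γ A) :
    YZ o N A + YY o N A = (((PA o).card : K) / 2) • DD N A := by
  have h1 : YZ o N A + YY o N A = ∑ a ∈ PA o, ∑ b ∈ PB N, (A a a - A b b) := by
    unfold YY YZ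
    rw [← Finset.sum_add_distrib]
    refine Finset.sum_congr rfl fun a ha => ?_
    rw [← Finset.sum_add_distrib]
    refine Finset.sum_congr rfl fun b hb => ?_
    rw [← rel_ab hF hA (mem_PA.1 ha) (odd_of hF (by rw [mem_PB.1 hb]; norm_num))]
    abel
  rw [h1]
  simp only [Finset.sum_sub_distrib, Finset.sum_const]
  rw [← Finset.smul_sum, sum_even hF hA, smul_zero, zero_sub, sum_DD hF hA, smul_neg, smul_smul,
    div_mul_cancel₀ _ two_ne_zero, Nat.cast_smul_eq_nsmul]

theorem com_H (hF : FormIdx o σ γ N) (hA : OspRel o σ γ A) (c : K) (l j : ι) :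
    (c / 2) • DD N A * A l j - A l j * ((c / 2) • DD N A) = (c * ((N l : K) - N j)) • A l j := by
  rw [smul_mul_assoc, mul_smul_comm, ← smul_sub, com hF hA, smul_smul]
  congr 1
  ring

theorem tr_YY (hF : FormIdx o σ γ N) (hA : OspRel o σ γ A) (c : K) (j : ℕ) :
    LinearMap.trace K Q (((c / 2) • DD N A) ^ j * YZ o N A) =
      LinearMap.trace K Q (((c / 2) • DD N A + algebraMap K (Module.End K Q) (-c)) ^ j *
        YY o N A) := by
  unfold YY YZ
  rw [Finset.mul_sum, Finset.mul_sum, map_sum, map_sum]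
  refine Finset.sum_congr rfl fun a ha => ?_
  rw [Finset.mul_sum, Finset.mul_sum, map_sum, map_sum]
  refine Finset.sum_congr rfl fun b hb => ?_
  have h1 : SemiconjBy (A a b) ((c / 2) • DD N A) ((c / 2) • DD N A +
      algebraMap K (Module.End K Q) (-c)) := by
    have h2 := com_H hF hA c a b
    rw [hF.even a (mem_PA.1 ha), mem_PB.1 hb] at h2
    show A a b * ((c / 2) • DD N A) = ((c / 2) • DD N A +
      algebraMap K (Module.End K Q) (-c)) * A a b
    rw [add_mul, ← Algebra.smul_def, neg_smul]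
    have h3 : (c * (((0 : ℤ) : K) - ((-1 : ℤ) : K))) = c := by push_cast; ring
    rw [h3] at h2
    rw [← h2]
    abel
  have h2 := h1.pow_right j
  have h3 : A a b * ((c / 2) • DD N A) ^ j = _ := h2
  rw [← mul_assoc, LinearMap.trace_mul_comm, ← mul_assoc, h3, mul_assoc]

end rel

open Pool.Agent.W2helper92.SG in
/-- **LAO.** -/
theorem p_lao : P_LAO.{w} := by
  intro hOXX hOCM K _ _ ι _ _ o σ γ N hF hex Q _ _ _ A hA ht
  have hNIL : P_NIL.{w} := Pool.Agent.W2helper98.SG.p_nil
  have hX : XX o A true = -XX o A false :=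
    (neg_eq_of_add_eq_zero_right (hOXX K ι o σ γ N hF Q A hA)).symm
  have hZZ : ZZ o A = (2 : K) • XX o A false := by
    unfold ZZ
    rw [hX, two_smul]
    abel
  have hZ : IsNilpotent (ZZ o A) := by
    apply hNIL K Q
    intro n
    have h1 : ZZ o A ^ (n + 1) = (2 : K) • (ZZ o A ^ n * XX o A false) := by
      rw [pow_succ]
      nth_rewrite 2 [hZZ]
      rw [mul_smul_comm]
    rw [h1, map_smul, ht n, smul_zero]
  set c : K := ((PA o).card : K) with hc
  have hc0 : c ≠ 0 := by
    obtain ⟨a, ha⟩ := hex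
    rw [hc, Nat.cast_ne_zero]
    exact Finset.card_ne_zero_of_mem (mem_PA.2 ha)
  have hX2 : -XX o A false = (-(1 / 2) : K) • ZZ o A := by
    rw [hZZ, smul_smul]
    norm_num
  have hZ' : IsNilpotent (-XX o A false) := by
    rw [hX2]
    exact hZ.smul _
  have hcom : Commute ((c / 2) • DD N A) (-XX o A false) := by
    rw [hX2]
    refine Commute.smul_left (Commute.smul_right ?_ _) _
    unfold DD
    exact Commute.sum_left _ _ _ fun b _ =>
      Commute.smul_left (hOCM K ι o σ γ N hF Q A hA b b rfl).symm _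
  have hH : IsNilpotent ((c / 2) • DD N A) :=
    core hNIL (neg_ne_zero.2 hc0) (sum_YY hF hA)
      (by rw [XX_false' hF hA]; abel) hZ' hcom (tr_YY hF hA c)
  intro k i hki
  have h1 := com_H hF hA c k i
  refine eq_zero_of_nil (mul_ne_zero hc0 ?_) hH h1
  rcases hk : o k with _ | _
  · have hi : o i = true := by
      rw [hk] at hki
      exact (Bool.eq_true_of_not_eq_false fun h => hki h.symm)
    rw [hF.even k hk]
    rcases hF.odd i hi with h2 | h2 <;> rw [h2] <;> norm_num
  · have hi : o i = false := by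
      rw [hk] at hki
      exact (Bool.eq_false_of_not_eq_true fun h => hki h.symm)
    rw [hF.even i hi]
    rcases hF.odd k hk with h2 | h2 <;> rw [h2] <;> norm_num

end Pool.Agent.W2helper88.SG
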