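import Pool.Agent.W2helper37.SG.Stm3
import Pool.Agent.W2helper88.SG.Ter

/-!
# Project SG, piece TTA: the transpose and tensor products
-/

set_option autoImplicit false
set_option linter.unusedSectionVars false
set_option linter.unusedSimpArgs false
set_option backward.isDefEq.respectTransparency false
set_option backward.defeqAttrib.useBackward true

open CategoryTheory Limits MonoidalCategory
open Pool.Agent.Y112.SR Pool.Agent.Y112.KD Pool.Agent.Y112.SC Pool.Agent.W2helper37.SG

namespace Pool.Agent.W2helper88.SG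

universe u v w

theorem ss_sigma {K : Type w} [Field K] {ι : Type} {V : Type w} [AddCommGroup V] [Module K V]
    {o : ι → Bool} {σ : ι → ι} {γ : ι → K} {N : ι → ℤ} (hF : FormIdx o σ γ N)
    (s : Module.End K V) (k i : ι) : SS o s (σ i) (σ k) = SS o s k i := by
  unfold SS
  rw [hF.par, hF.par]
  by_cases h : o k = o i
  · rw [if_pos h, if_pos h.symm]
  · rw [if_neg h, if_neg (Ne.symm h)]

theorem tta_abs {K : Type w} [Field K] {V W U : Type w} [AddCommGroup V] [Module K V]
    [AddCommGroup W] [Module K W] [AddCommGroup U] [Module K U]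
    (t : Module.End K V →ₗ[K] Module.End K W →ₗ[K] Module.End K U) (c : K)
    (a a' : Module.End K V) (s : Module.End K V) (b b' : Module.End K W) :
    t (a - c • a') 1 + t s (b - c • b') = t a 1 + t s b - c • (t a' 1 + t s b') := by
  rw [map_sub, map_sub, map_smul, map_smul, LinearMap.sub_apply, LinearMap.smul_apply, smul_add]
  abel

theorem p_tta : P_TTA.{v, u, w} := by
  intro C _ _ _ _ _ _ _ _ K _ R X Y ι _ _ o σ γ N hF A B k i
  rw [tenA_eq R o (fun k i => A k i - tauA o σ γ A k i) (fun k i => B k i - tauA o σ γ B k i)]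
  show tt R X Y (A k i - tauA o σ γ A k i) 1 +
    tt R X Y (SS o (R.par X).hom k i) (B k i - tauA o σ γ B k i) = _
  unfold tauA
  rw [tenA_eq R o A B]
  show _ = tt R X Y (A k i) 1 + tt R X Y (SS o (R.par X).hom k i) (B k i) -
    (Pool.Agent.W2helper37.SG.cc K (o i) (o k) * γ i * (γ (σ k))⁻¹) •
      (tt R X Y (A (σ i) (σ k)) 1 + tt R X Y (SS o (R.par X).hom (σ i) (σ k)) (B (σ i) (σ k)))
  rw [ss_sigma hF]
  exact tta_abs (tt R X Y) _ _ _ _ _ _

end Pool.Agent.W2helper88.SG
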